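import Mathlib
import Pool.Agent.H2.KneserH

set_option autoImplicit false

/-!
The signed `[0,s]`-critical number of `ℤ/n` equals `v_±(n,s) + 1` for all positive `n` and `s`.

`[0,s]_± A` is the `s`-fold sumset of the symmetric set `B = A ∪ (-A) ∪ {0}`. If it is not `ℤ/n` then
Kneser's theorem, with `H` the stabiliser of `s B`, `|H| = n / d` and `|B + H| = k |H|`, gives
`s (k - 1) ≤ d - 2`. If `n` is odd then `k` is odd, because `B + H` is symmetric and contains `0`.
-/

namespace Pool.Agent.Results.MP_c7e63d_co.AllCyclic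

open Finset
open scoped Pointwise

/-- The `h`-fold signed sumset `h_± A`: the sums `∑_{a ∈ A} λ_a a` with integers `λ_a`,
`∑_{a ∈ A} |λ_a| = h`. -/
def signedSumset {n : ℕ} (h : ℕ) (A : Finset (ZMod n)) : Set (ZMod n) :=
  {x | ∃ c : ZMod n → ℤ, ∑ a ∈ A, (c a).natAbs = h ∧ ∑ a ∈ A, c a • a = x}

/-- `[0,s]_± A`, the union of the `h`-fold signed sumsets for `0 ≤ h ≤ s`. -/
def signedUpTo {n : ℕ} (s : ℕ) (A : Finset (ZMod n)) : Set (ZMod n) :=
  ⋃ h ∈ Set.Icc 0 s, signedSumset h A

/-- The signed `[0,s]`-critical number of `ℤ/n`: the least `m` such that `[0,s]_± A = ℤ/n` for every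
set `A` with at least `m` elements. -/
noncomputable def critical (n s : ℕ) : ℕ :=
  sInf {m | ∀ A : Finset (ZMod n), m ≤ A.card → signedUpTo s A = Set.univ}

/-- The maximum of `(2 ⌊(d - 2) / (2 h)⌋ + 1) (n / d)` over the positive divisors `d` of `n`
(division of integers by the positive number `2 h` is the floor of the quotient). -/
noncomputable def vpm (n h : ℕ) : ℤ :=
  sSup {w | ∃ d ∈ n.divisors, w = (2 * (((d : ℤ) - 2) / (2 * (h : ℤ))) + 1) * ((n / d : ℕ) : ℤ)}

section
variable {n : ℕ} [NeZero n]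

/-- `A ∪ (-A) ∪ {0}` -/
def sym (A : Finset (ZMod n)) : Finset (ZMod n) := insert 0 (A ∪ -A)

omit [NeZero n] in
theorem zero_mem_sym (A : Finset (ZMod n)) : (0 : ZMod n) ∈ sym A := mem_insert_self _ _

omit [NeZero n] in
theorem subset_sym (A : Finset (ZMod n)) : A ⊆ sym A := fun x hx => by
  simp [sym, hx]

omit [NeZero n] in
theorem neg_mem_sym {A : Finset (ZMod n)} {x : ZMod n} (hx : x ∈ sym A) : -x ∈ sym A := by
  simp only [sym, mem_insert, mem_union, Finset.mem_neg'] at hx ⊢
  rcases hx with h | h | h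
  · left; rw [h, neg_zero]
  · right; right; simpa using h
  · right; left; exact h

omit [NeZero n] in
theorem mem_upTo {s : ℕ} {A : Finset (ZMod n)} {x : ZMod n} :
    x ∈ signedUpTo s A ↔ ∃ c : ZMod n → ℤ, ∑ a ∈ A, (c a).natAbs ≤ s ∧ ∑ a ∈ A, c a • a = x := by
  simp only [signedUpTo, signedSumset, Set.mem_iUnion, Set.mem_ofPred_eq, exists_prop, Set.mem_Icc]
  constructor
  · rintro ⟨h, ⟨-, hs⟩, c, hc, hx⟩
    exact ⟨c, hc ▸ hs, hx⟩
  · rintro ⟨c, hc, hx⟩
    exact ⟨_, ⟨Nat.zero_le _, hc⟩, c, rfl, hx⟩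

omit [NeZero n] in
theorem zsmul_mem {A : Finset (ZMod n)} {a : ZMod n} (ha : a ∈ A) (k : ℤ) :
    k • a ∈ k.natAbs • sym A := by
  rcases Int.natAbs_eq k with h | h
  · have : k • a = k.natAbs • a := by
      nth_rewrite 1 [h]
      exact natCast_zsmul a _
    rw [this]
    exact Finset.nsmul_mem_nsmul (subset_sym A ha)
  · have : k • a = k.natAbs • (-a) := by
      nth_rewrite 1 [h]
      rw [neg_smul, natCast_zsmul, smul_neg]
    rw [this]
    exact Finset.nsmul_mem_nsmul (neg_mem_sym (subset_sym A ha))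

omit [NeZero n] in
theorem sum_mem_nsmul (A S : Finset (ZMod n)) (hS : S ⊆ A) (c : ZMod n → ℤ) :
    ∑ a ∈ S, c a • a ∈ (∑ a ∈ S, (c a).natAbs) • sym A := by
  classical
  induction S using Finset.induction_on with
  | empty => simp
  | insert a S ha ih =>
    rw [Finset.sum_insert ha, Finset.sum_insert ha, add_nsmul]
    exact Finset.add_mem_add (zsmul_mem (hS (mem_insert_self _ _)) _)
      (ih fun x hx => hS (mem_insert_of_mem hx))

omit [NeZero n] in
theorem upTo_eq (s : ℕ) (A : Finset (ZMod n)) : signedUpTo s A = ↑(s • sym A) := by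
  classical
  ext x
  rw [mem_upTo, Finset.mem_coe]
  constructor
  · rintro ⟨c, hc, rfl⟩
    exact Finset.nsmul_subset_nsmul_right (zero_mem_sym A) hc (sum_mem_nsmul A A (Subset.refl _) c)
  · intro hx
    induction s generalizing x with
    | zero =>
      rw [zero_nsmul, Finset.mem_zero] at hx
      exact ⟨fun _ => 0, by simp, by simp [hx]⟩
    | succ s ih =>
      rw [succ_nsmul, Finset.mem_add] at hx
      obtain ⟨y, hy, b, hb, rfl⟩ := hx
      obtain ⟨c, hc, rfl⟩ := ih _ hy
      have key : ∀ (a : ZMod n) (ha : a ∈ A) (e : ℤ), e.natAbs = 1 → ∃ c' : ZMod n → ℤ,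
          ∑ a ∈ A, (c' a).natAbs ≤ s + 1 ∧ ∑ a ∈ A, c' a • a = ∑ a ∈ A, c a • a + e • a := by
        intro a ha e he
        refine ⟨fun x => c x + if x = a then e else 0, ?_, ?_⟩
        · calc ∑ x ∈ A, (c x + if x = a then e else 0).natAbs
              ≤ ∑ x ∈ A, ((c x).natAbs + if x = a then 1 else 0) := by
                refine Finset.sum_le_sum fun x _ => ?_
                split
                · rw [← he]; exact Int.natAbs_add_le _ _
                · simp
            _ = ∑ x ∈ A, (c x).natAbs + 1 := by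
                rw [Finset.sum_add_distrib, Finset.sum_ite_eq' A a, if_pos ha]
            _ ≤ s + 1 := by omega
        · simp only [add_smul, ite_smul, zero_smul]
          rw [Finset.sum_add_distrib, Finset.sum_ite_eq' A a, if_pos ha]
      simp only [sym, mem_insert, mem_union, Finset.mem_neg'] at hb
      rcases hb with hb | hb | hb
      · exact ⟨c, by omega, by rw [hb, add_zero]⟩
      · obtain ⟨c', h1, h2⟩ := key b hb 1 rfl
        exact ⟨c', h1, by rw [h2, one_smul]⟩
      · obtain ⟨c', h1, h2⟩ := key (-b) hb (-1) rfl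
        exact ⟨c', h1, by rw [h2]; simp⟩

omit [NeZero n] in
/-- A symmetric finite set containing `0` in a group of odd order has odd cardinality. -/
theorem odd_card (hodd : Odd n) (B : Finset (ZMod n)) (h0 : (0 : ZMod n) ∈ B)
    (hs : ∀ x ∈ B, -x ∈ B) : Odd B.card := by
  classical
  have h1 : ∑ x ∈ B.erase 0, (1 : ZMod 2) = 0 := by
    refine Finset.sum_involution (fun x _ => -x) ?_ ?_ ?_ ?_
    · intro a _; decide
    · intro a ha _ h
      have h2 : a + a = 0 := by
        nth_rewrite 1 [← h]
        simp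
      obtain ⟨k, hk⟩ := hodd
      have h3 : (n : ZMod n) * a = 0 := by simp
      have h3' : (n : ZMod n) = ((2 * k + 1 : ℕ) : ZMod n) := congrArg Nat.cast hk
      rw [h3'] at h3
      push_cast at h3
      have h4 : a = 0 := by linear_combination h3 - (k : ZMod n) * h2
      exact (Finset.mem_erase.1 ha).1 h4
    · intro a ha
      rw [Finset.mem_erase] at ha ⊢
      exact ⟨by simpa using ha.1, hs a ha.2⟩
    · intro a ha; simp
  have h2 : ((B.erase 0).card : ZMod 2) = 0 := by simpa using h1
  rw [ZMod.natCast_eq_zero_iff_even] at h2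
  have h3 := Finset.card_erase_add_one h0
  rw [← h3]
  exact h2.add_one

/-- The value of the maximum at one divisor. -/
def val (n h d : ℕ) : ℤ := (2 * (((d : ℤ) - 2) / (2 * (h : ℤ))) + 1) * ((n / d : ℕ) : ℤ)

theorem vpm_isGreatest (h : ℕ) : IsGreatest {w | ∃ d ∈ n.divisors, w = val n h d} (vpm n h) := by
  have hfin : {w | ∃ d ∈ n.divisors, w = val n h d}.Finite := by
    have : {w | ∃ d ∈ n.divisors, w = val n h d} = (val n h) '' (n.divisors : Set ℕ) := by
      ext w
      simp only [Set.mem_ofPred_eq, Set.mem_image, Finset.mem_coe]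
      constructor
      · rintro ⟨d, hd, rfl⟩; exact ⟨d, hd, rfl⟩
      · rintro ⟨d, hd, rfl⟩; exact ⟨d, hd, rfl⟩
    rw [this]
    exact (Finset.finite_toSet _).image _
  have hne : {w | ∃ d ∈ n.divisors, w = val n h d}.Nonempty :=
    ⟨val n h n, n, Nat.mem_divisors_self n (NeZero.ne n), rfl⟩
  exact ⟨hne.csSup_mem hfin, fun w hw => le_csSup hfin.bddAbove hw⟩

theorem val_le_vpm (h : ℕ) {d : ℕ} (hd : d ∣ n) : val n h d ≤ vpm n h :=
  (vpm_isGreatest h).2 ⟨d, Nat.mem_divisors.mpr ⟨hd, NeZero.ne n⟩, rfl⟩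

/-- The upper bound. -/
theorem card_le {s : ℕ} (hs : 1 ≤ s) (A : Finset (ZMod n)) (hA : signedUpTo s A ≠ Set.univ) :
    (A.card : ℤ) ≤ vpm n s := by
  classical
  obtain ⟨h, rfl⟩ : ∃ h, s = h + 1 := ⟨s - 1, by omega⟩
  rw [upTo_eq] at hA
  have hne : (h + 1) • sym A ≠ univ := fun e => hA (by rw [e]; simp)
  obtain ⟨d, k, hd, hk, hk0, hdk⟩ :=
    Pool.Agent.H2.Kneser.kneser_num ⟨0, zero_mem_sym A⟩ h hne
  set H := Pool.Agent.H2.Kneser.st ((h + 1) • sym A) with hH
  have sH : Pool.Agent.H2.Kneser.Sg H := Pool.Agent.H2.Kneser.sg_st _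
  have hHpos : 0 < H.card := sH.pos
  rw [ZMod.card] at hd
  have hdpos : 0 < d := by
    rcases Nat.eq_zero_or_pos d with h0 | h0
    · rw [h0, zero_mul] at hd
      exact absurd hd (NeZero.ne n)
    · exact h0
  have hdvd : d ∣ n := ⟨_, hd⟩
  have hnd : n / d = H.card := Nat.div_eq_of_eq_mul_right hdpos hd
  have hcard : A.card ≤ k * H.card := by
    rw [← hk]
    exact Finset.card_le_card ((subset_sym A).trans (sH.subset_add _))
  -- `(h + 1) (k - 1) ≤ d - 2`
  have hmain : (h + 1) * (k - 1) + 2 ≤ d := by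
    obtain ⟨j, rfl⟩ : ∃ j, k = j + 1 := ⟨k - 1, by omega⟩
    simp only [Nat.add_sub_cancel]
    nlinarith
  rcases Nat.even_or_odd n with hn | hn
  · rcases Nat.eq_zero_or_pos h with h0 | h0
    · -- `s = 1`
      subst h0
      have h1 : A.card < n := by
        have : A ≠ univ := by
          rintro rfl
          apply hne
          rw [zero_add, one_smul]
          exact Finset.eq_univ_iff_forall.mpr fun x => subset_sym _ (mem_univ x)
        have := Finset.card_lt_card (Finset.ssubset_univ_iff.mpr this)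
        rwa [Finset.card_univ, ZMod.card] at this
      refine le_trans ?_ (val_le_vpm 1 (dvd_refl n))
      obtain ⟨m, hm⟩ := hn
      have hn0 : n ≠ 0 := NeZero.ne n
      have hnn : n / n = 1 := Nat.div_self (Nat.pos_of_ne_zero hn0)
      simp only [val, hnn]
      push_cast
      omega
    · refine le_trans ?_ (val_le_vpm (h + 1) (even_iff_two_dvd.mp hn))
      have h2 : 2 * k ≤ d := by
        obtain ⟨j, rfl⟩ : ∃ j, k = j + 1 := ⟨k - 1, by omega⟩
        simp only [Nat.add_sub_cancel] at hmain
        nlinarith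
      have h3 : 2 * A.card ≤ n := by
        calc 2 * A.card ≤ 2 * (k * H.card) := by omega
          _ = (2 * k) * H.card := by ring
          _ ≤ d * H.card := Nat.mul_le_mul_right _ h2
          _ = n := hd.symm
      simp only [val]
      norm_num
      omega
  · -- `n` odd
    have hodd : Odd k := by
      have h1 : Odd (k * H.card) := by
        rw [← hk]
        refine odd_card hn _ ?_ ?_
        · exact sH.subset_add _ (zero_mem_sym A)
        · intro x hx
          rw [Finset.mem_add] at hx ⊢
          obtain ⟨y, hy, z, hz, rfl⟩ := hx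
          exact ⟨-y, neg_mem_sym hy, -z, sH.neg hz, by ring⟩
      exact (Nat.odd_mul.mp h1).1
    obtain ⟨t, ht⟩ := hodd
    refine le_trans ?_ (val_le_vpm (h + 1) hdvd)
    have h4 : (t : ℤ) ≤ ((d : ℤ) - 2) / (2 * ((h + 1 : ℕ) : ℤ)) := by
      rw [Int.le_ediv_iff_mul_le (by positivity)]
      rw [ht] at hmain
      simp only [Nat.add_sub_cancel] at hmain
      have : ((h : ℤ) + 1) * (2 * t) + 2 ≤ d := by exact_mod_cast hmain
      push_cast
      linarith
    have h5 : (A.card : ℤ) ≤ (2 * t + 1) * (H.card : ℤ) := by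
      have : A.card ≤ (2 * t + 1) * H.card := ht ▸ hcard
      exact_mod_cast this
    simp only [val, hnd]
    refine h5.trans ?_
    have : (0 : ℤ) ≤ (H.card : ℤ) := by positivity
    nlinarith

/-- The extremal sets. -/
theorem exists_extremal {s : ℕ} (hs : 1 ≤ s) {d : ℕ} (hd : d ∣ n) (hd2 : 2 ≤ d) :
    ∃ A : Finset (ZMod n), (A.card : ℤ) = val n s d ∧ signedUpTo s A ≠ Set.univ := by
  classical
  obtain ⟨e, he⟩ := hd
  have hepos : 0 < e := by
    rcases Nat.eq_zero_or_pos e with h0 | h0
    · rw [h0, mul_zero] at he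
      exact absurd he (NeZero.ne n)
    · exact h0
  have hnd : n / d = e := by
    rw [he]
    exact Nat.mul_div_cancel_left _ (by omega)
  set t : ℕ := (d - 2) / (2 * s) with ht
  have htd : 2 * s * t ≤ d - 2 := Nat.mul_div_le _ _
  have htval : ((d : ℤ) - 2) / (2 * (s : ℤ)) = t := by
    rw [ht]
    push_cast [Nat.cast_sub hd2]
    rfl
  let f : ℤ × ℕ → ZMod n := fun q => ((q.1 + d * q.2 : ℤ) : ZMod n)
  let D : Finset (ℤ × ℕ) := Finset.Icc (-(t : ℤ)) t ×ˢ Finset.range e
  have hinj : Set.InjOn f D := by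
    rintro ⟨j, i⟩ hq ⟨j', i'⟩ hq' h
    simp only [D, Finset.coe_product, Set.mem_prod, Finset.mem_coe, Finset.mem_Icc,
      Finset.mem_range] at hq hq'
    simp only [f] at h
    rw [ZMod.intCast_eq_intCast_iff_dvd_sub] at h
    obtain ⟨m, hm⟩ := h
    have hm' : j' - j = d * (e * m + i - i') := by
      have : (n : ℤ) = d * e := by rw [he]; push_cast; ring
      rw [this] at hm
      linear_combination hm
    have h2t : (2 * t : ℤ) < d := by
      have : t ≤ s * t := Nat.le_mul_of_pos_left _ (by omega)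
      have h3 : 2 * t ≤ d - 2 := by nlinarith
      omega
    have h0 : (e * m + i - i' : ℤ) = 0 := by
      by_contra hne
      have h1 : (1 : ℤ) ≤ |(e * m + i - i' : ℤ)| := Int.one_le_abs hne
      have h2 : |j' - j| ≤ 2 * t := by rw [abs_le]; constructor <;> linarith [hq.1.1, hq.1.2]
      have h3 : |j' - j| = d * |(e * m + i - i' : ℤ)| := by
        rw [hm', abs_mul, abs_of_nonneg (by positivity : (0 : ℤ) ≤ (d : ℤ))]
      nlinarith
    have hjj : j = j' := by
      rw [h0, mul_zero] at hm'
      linarith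
    have hii : (i' : ℤ) - i = e * m := by linarith
    have h0' : m = 0 := by
      by_contra hne
      have h1 : (1 : ℤ) ≤ |m| := Int.one_le_abs hne
      have h2 : |(i' : ℤ) - i| < e := by
        rw [abs_lt]
        have := hq.2
        have := hq'.2
        constructor <;> omega
      rw [hii, abs_mul, abs_of_nonneg (by positivity : (0 : ℤ) ≤ (e : ℤ))] at h2
      nlinarith
    rw [h0', mul_zero] at hii
    have : i = i' := by omega
    rw [hjj, this]
  refine ⟨D.image f, ?_, ?_⟩
  · rw [Finset.card_image_of_injOn hinj]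
    simp only [D, Finset.card_product, Int.card_Icc, Finset.card_range, val, htval, hnd]
    push_cast
    congr 1
    rw [Int.toNat_of_nonneg (by have : (0 : ℤ) ≤ t := by positivity
                                linarith)]
    ring
  · -- residues modulo `d`
    let φ : ZMod n →+* ZMod d := ZMod.castHom ⟨e, he⟩ (ZMod d)
    have hφ : ∀ r : ℕ, ∀ x ∈ r • sym (D.image f), ∃ j : ℤ, |j| ≤ r * t ∧ φ x = (j : ZMod d) := by
      intro r
      induction r with
      | zero =>
        intro x hx
        rw [zero_nsmul, Finset.mem_zero] at hx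
        exact ⟨0, by simp, by simp [hx]⟩
      | succ r ih =>
        intro x hx
        rw [succ_nsmul, Finset.mem_add] at hx
        obtain ⟨y, hy, b, hb, rfl⟩ := hx
        obtain ⟨j, hj, hj'⟩ := ih y hy
        have hb' : ∃ l : ℤ, |l| ≤ t ∧ φ b = (l : ZMod d) := by
          have hA : ∀ a ∈ D.image f, ∃ l : ℤ, |l| ≤ t ∧ φ a = (l : ZMod d) := by
            intro a ha
            obtain ⟨⟨l, i⟩, hq, rfl⟩ := Finset.mem_image.mp ha
            simp only [D, Finset.mem_product, Finset.mem_Icc] at hq
            refine ⟨l, abs_le.mpr hq.1, ?_⟩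
            show φ (((l + d * i : ℤ) : ZMod n)) = _
            rw [map_intCast]
            push_cast
            simp
          simp only [sym, mem_insert, mem_union, Finset.mem_neg'] at hb
          rcases hb with hb | hb | hb
          · exact ⟨0, by simp, by simp [hb]⟩
          · exact hA b hb
          · obtain ⟨l, hl, hl'⟩ := hA _ hb
            refine ⟨-l, by rwa [abs_neg], ?_⟩
            rw [map_neg] at hl'
            push_cast
            rw [← hl', neg_neg]
        obtain ⟨l, hl, hl'⟩ := hb'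
        refine ⟨j + l, ?_, ?_⟩
        · calc |j + l| ≤ |j| + |l| := abs_add_le _ _
            _ ≤ r * t + t := by linarith
            _ = ((r + 1 : ℕ) : ℤ) * t := by push_cast; ring
        · rw [map_add, hj', hl']
          push_cast
          ring
    intro huniv
    have hx : (((s * t + 1 : ℕ) : ℤ) : ZMod n) ∈ signedUpTo s (D.image f) := by
      rw [huniv]; trivial
    rw [upTo_eq, Finset.mem_coe] at hx
    obtain ⟨j, hj, hj'⟩ := hφ s _ hx
    rw [map_intCast, ZMod.intCast_eq_intCast_iff_dvd_sub] at hj'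
    obtain ⟨m, hm⟩ := hj'
    rw [abs_le] at hj
    have hst : 2 * (s * t) + 2 ≤ d := by
      have : 2 * s * t = 2 * (s * t) := by ring
      omega
    have hst' : (2 * ((s : ℤ) * t) + 2 : ℤ) ≤ d := by exact_mod_cast hst
    push_cast at hm
    have hm0 : m < 0 := by
      by_contra hge
      push Not at hge
      have : (0 : ℤ) ≤ d * m := by positivity
      linarith [hj.2]
    have : (d : ℤ) * m ≤ -d := by nlinarith
    linarith [hj.1]

/-- **Q1.** For all positive integers `n` and `s` the signed `[0,s]`-critical number of `ℤ/n` is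
`v_±(n,s) + 1`. -/
theorem result (n s : ℕ) (hn : 0 < n) (hs : 0 < s) : (critical n s : ℤ) = vpm n s + 1 := by
  have : NeZero n := ⟨hn.ne'⟩
  -- `v ≥ -1`
  have hv : -1 ≤ vpm n s := by
    refine le_trans ?_ (val_le_vpm s (dvd_refl n))
    have hnn : n / n = 1 := Nat.div_self hn
    simp only [val, hnn]
    have h1 : (-1 : ℤ) ≤ ((n : ℤ) - 2) / (2 * (s : ℤ)) := by
      rw [Int.le_ediv_iff_mul_le (by positivity)]
      have : (1 : ℤ) ≤ n := by exact_mod_cast hn
      have : (1 : ℤ) ≤ s := by exact_mod_cast hs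
      linarith
    push_cast
    linarith
  have hmem : (vpm n s + 1).toNat ∈
      {m | ∀ A : Finset (ZMod n), m ≤ A.card → signedUpTo s A = Set.univ} := by
    intro A hA
    by_contra hne
    have h1 := card_le hs A hne
    have h2 : ((vpm n s + 1).toNat : ℤ) ≤ A.card := by exact_mod_cast hA
    rw [Int.toNat_of_nonneg (by linarith)] at h2
    linarith
  apply le_antisymm
  · have h1 : critical n s ≤ (vpm n s + 1).toNat := Nat.sInf_le hmem
    have h2 : (critical n s : ℤ) ≤ ((vpm n s + 1).toNat : ℤ) := by exact_mod_cast h1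
    rwa [Int.toNat_of_nonneg (by linarith)] at h2
  · have hcmem : critical n s ∈
        {m | ∀ A : Finset (ZMod n), m ≤ A.card → signedUpTo s A = Set.univ} :=
      Nat.sInf_mem ⟨_, hmem⟩
    obtain ⟨d, hd, hdv⟩ := (vpm_isGreatest (n := n) s).1
    rw [Nat.mem_divisors] at hd
    rcases Nat.lt_or_ge d 2 with h2 | h2
    · have hd1 : d = 1 := by
        have := Nat.pos_of_dvd_of_pos hd.1 hn
        omega
      subst hd1
      have h1 : ((1 : ℤ) - 2) / (2 * (s : ℤ)) = -1 := by
        rw [Int.ediv_eq_iff_of_pos (by positivity)]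
        constructor <;> nlinarith [(by exact_mod_cast hs : (1 : ℤ) ≤ s)]
      have h3 : vpm n s ≤ -1 := by
        rw [hdv, val]
        simp only [Nat.cast_one, h1, Nat.div_one]
        have : (1 : ℤ) ≤ n := by exact_mod_cast hn
        linarith
      have : (0 : ℤ) ≤ critical n s := by positivity
      linarith
    · obtain ⟨A, hA, hne⟩ := exists_extremal hs hd.1 h2
      by_contra hlt
      push Not at hlt
      apply hne
      apply hcmem A
      have h3 : (critical n s : ℤ) ≤ A.card := by
        rw [hA, ← hdv]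
        linarith
      exact_mod_cast h3

end

end Pool.Agent.Results.MP_c7e63d_co.AllCyclic
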